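import Mathlib

set_option autoImplicit false
open Real WithLp

namespace Pool.Agent.H.MP_1643f9

def S (a b : Fin 9 → ℝ → ℝ) (q : ℝ × ℝ) : EuclideanSpace ℝ (Fin 9) :=
  toLp 2 fun i => a i q.1 * b i q.2

theorem dS {a b a' b' : Fin 9 → ℝ → ℝ} (ha : ∀ i t, HasDerivAt (a i) (a' i t) t)
    (hb : ∀ i t, HasDerivAt (b i) (b' i t) t) (p v : ℝ × ℝ) :
    fderiv ℝ (S a b) p v = v.1 • S a' b p + v.2 • S a b' p := by
  have h := fun i => ((ha i p.1).hasFDerivAt.comp p hasFDerivAt_fst).mul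
    ((hb i p.2).hasFDerivAt.comp p hasFDerivAt_snd)
  have d : DifferentiableAt ℝ (S a b) p := differentiableAt_euclidean.2 fun i =>
    (h i).differentiableAt
  ext i
  have := congrArg (fun L => L v) (((EuclideanSpace.proj i : _ →L[ℝ] ℝ).hasFDerivAt.comp p
    d.hasFDerivAt).unique (h i))
  simp [S] at this ⊢
  rw [this]
  ring

noncomputable def W (t : ℝ) : ℝ := √(8 - 3 * sin t ^ 2)

theorem W1 (t : ℝ) : 0 < 8 - 3 * sin t ^ 2 := by nlinarith [sin_sq_le_one t]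

theorem W0 (t : ℝ) : W t ≠ 0 := (sqrt_pos.2 (W1 t)).ne'

theorem W2 (t : ℝ) : W t ^ 2 = 8 - 3 * sin t ^ 2 := sq_sqrt (W1 t).le

theorem dW (t : ℝ) : HasDerivAt W (-3 * sin t * cos t / W t) t := by
  refine ((((hasDerivAt_sin t).pow 2).const_mul 3 |>.const_sub 8).sqrt (W1 t).ne').congr_deriv ?_
  have := W0 t
  simp only [Pi.pow_apply]
  unfold W at *
  field_simp
  simp
  ring

noncomputable def a : Fin 9 → ℝ → ℝ := fun i t =>
  ![20 * √3 * cos t, 20 * √3 * cos t, 20 * √3 * sin t, 20 * √3 * sin t, 4 * √3 * (cos t * W t),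
    4 * √3 * (cos t * W t), 5 * √3 * (sin t * W t), 5 * √3 * (sin t * W t), 4 - 9 * sin t ^ 2] i

noncomputable def A : Fin 9 → ℝ → ℝ := fun i t =>
  ![-20 * √3 * (sin t * W t), -20 * √3 * (sin t * W t), 20 * √3 * (cos t * W t),
    20 * √3 * (cos t * W t), 4 * √3 * (6 * sin t ^ 3 - 11 * sin t),
    4 * √3 * (6 * sin t ^ 3 - 11 * sin t), 5 * √3 * (6 * cos t ^ 3 + 2 * cos t),
    5 * √3 * (6 * cos t ^ 3 + 2 * cos t), -18 * (sin t * cos t * W t)] i

def μ : Fin 9 → ℝ := ![2, 2, 1, 1, 5, 5, 4, 4, 0]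
def c : Fin 9 → ℝ := ![1, 0, 1, 0, 1, 0, 1, 0, 1]
def Λ : Fin 9 → ℝ := ![6, 6, 6, 6, 18, 18, 18, 18, 18]

noncomputable def b (i : Fin 9) (t : ℝ) : ℝ := c i * cos (μ i * t) + (1 - c i) * sin (μ i * t)
noncomputable def B (i : Fin 9) (t : ℝ) : ℝ :=
  μ i * ((1 - c i) * cos (μ i * t) - c i * sin (μ i * t))

theorem db (i : Fin 9) (t : ℝ) : HasDerivAt (b i) (B i t) t := by
  refine ((((hasDerivAt_id t).const_mul (μ i)).cos.const_mul (c i)).add
    (((hasDerivAt_id t).const_mul (μ i)).sin.const_mul (1 - c i))).congr_deriv ?_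
  simp [B]
  ring

theorem dB (i : Fin 9) (t : ℝ) : HasDerivAt (B i) (-μ i ^ 2 * b i t) t := by
  refine (((((hasDerivAt_id t).const_mul (μ i)).cos.const_mul (1 - c i)).sub
    (((hasDerivAt_id t).const_mul (μ i)).sin.const_mul (c i))).const_mul (μ i)).congr_deriv ?_
  simp [b]
  ring

theorem da (i : Fin 9) (t : ℝ) : HasDerivAt (a i) (A i t / W t) t := by
  have s := hasDerivAt_sin t
  have k := hasDerivAt_cos t
  have w := dW t
  have h0 := W0 t
  have h2 := W2 t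
  have h3 := sin_sq_add_cos_sq t
  have e1 : HasDerivAt (fun t => 20 * √3 * cos t) (-20 * √3 * (sin t * W t) / W t) t := by
    refine (k.const_mul (20 * √3)).congr_deriv ?_
    field_simp
  have e2 : HasDerivAt (fun t => 20 * √3 * sin t) (20 * √3 * (cos t * W t) / W t) t := by
    refine (s.const_mul (20 * √3)).congr_deriv ?_
    field_simp
  have e3 : HasDerivAt (fun t => 4 * √3 * (cos t * W t))
      (4 * √3 * (6 * sin t ^ 3 - 11 * sin t) / W t) t := by
    refine ((k.mul w).const_mul (4 * √3)).congr_deriv ?_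
    field_simp
    grind
  have e4 : HasDerivAt (fun t => 5 * √3 * (sin t * W t))
      (5 * √3 * (6 * cos t ^ 3 + 2 * cos t) / W t) t := by
    refine ((s.mul w).const_mul (5 * √3)).congr_deriv ?_
    field_simp
    grind
  have e5 : HasDerivAt (fun t => 4 - 9 * sin t ^ 2) (-18 * (sin t * cos t * W t) / W t) t := by
    refine (((s.pow 2).const_mul 9).const_sub 4).congr_deriv ?_
    field_simp
    simp
    ring
  fin_cases i
  exacts [e1, e1, e2, e2, e3, e3, e4, e4, e5]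

theorem dA (i : Fin 9) (t : ℝ) :
    HasDerivAt (A i) ((μ i ^ 2 - Λ i * (2 - sin t ^ 2)) * a i t / W t) t := by
  have s := hasDerivAt_sin t
  have k := hasDerivAt_cos t
  have w := dW t
  have h0 := W0 t
  have h2 := W2 t
  have h3 := sin_sq_add_cos_sq t
  have e1 : HasDerivAt (fun t => -20 * √3 * (sin t * W t))
      ((2 ^ 2 - 6 * (2 - sin t ^ 2)) * (20 * √3 * cos t) / W t) t := by
    refine ((s.mul w).const_mul (-20 * √3)).congr_deriv ?_
    field_simp
    grind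
  have e2 : HasDerivAt (fun t => 20 * √3 * (cos t * W t))
      ((1 ^ 2 - 6 * (2 - sin t ^ 2)) * (20 * √3 * sin t) / W t) t := by
    refine ((k.mul w).const_mul (20 * √3)).congr_deriv ?_
    field_simp
    grind
  have e3 : HasDerivAt (fun t => 4 * √3 * (6 * sin t ^ 3 - 11 * sin t))
      ((5 ^ 2 - 18 * (2 - sin t ^ 2)) * (4 * √3 * (cos t * W t)) / W t) t := by
    refine ((((s.pow 3).const_mul 6).sub (s.const_mul 11)).const_mul (4 * √3)).congr_deriv ?_
    field_simp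
    simp
    grind
  have e4 : HasDerivAt (fun t => 5 * √3 * (6 * cos t ^ 3 + 2 * cos t))
      ((4 ^ 2 - 18 * (2 - sin t ^ 2)) * (5 * √3 * (sin t * W t)) / W t) t := by
    refine ((((k.pow 3).const_mul 6).add (k.const_mul 2)).const_mul (5 * √3)).congr_deriv ?_
    field_simp
    simp
    grind
  have e5 : HasDerivAt (fun t => -18 * (sin t * cos t * W t))
      ((0 ^ 2 - 18 * (2 - sin t ^ 2)) * (4 - 9 * sin t ^ 2) / W t) t := by
    refine (((s.mul k).mul w).const_mul (-18)).congr_deriv ?_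
    field_simp
    simp
    grind
  fin_cases i
  exacts [e1, e1, e2, e2, e3, e3, e4, e4, e5]

noncomputable def X (e : Fin 9 → ℝ) := S (fun i t => e i * a i t) b

theorem dX (e : Fin 9 → ℝ) (p : ℝ × ℝ) :
    fderiv ℝ (X e) p (1, 0) = S (fun i t => e i * (A i t / W t)) b p ∧
      fderiv ℝ (X e) p (0, 1) = S (fun i t => e i * a i t) B p := by
  simp [X, dS (fun i t => (da i t).const_mul (e i)) db p]

theorem sm (e : Fin 9 → ℝ) : ContDiff ℝ (⊤ : ℕ∞) (X e) := by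
  have w : ContDiff ℝ (⊤ : ℕ∞) W := ContDiff.sqrt (by fun_prop) fun t => (W1 t).ne'
  have h : ∀ i, ContDiff ℝ (⊤ : ℕ∞) (a i) := fun i => by
    unfold a
    fin_cases i <;> simp <;> fun_prop
  refine contDiff_euclidean.2 fun i => ?_
  have := h i
  simp only [X, S, b]
  fun_prop

theorem gr (p : ℝ × ℝ) : ‖X 1 p‖ ^ 2 = 40 ^ 2 ∧
    inner ℝ (fderiv ℝ (X 1) p (1, 0)) (fderiv ℝ (X 1) p (1, 0)) =
      7200 * (2 - sin p.1 ^ 2) / W p.1 ^ 2 ∧
    inner ℝ (fderiv ℝ (X 1) p (1, 0)) (fderiv ℝ (X 1) p (0, 1)) = 0 ∧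
    inner ℝ (fderiv ℝ (X 1) p (0, 1)) (fderiv ℝ (X 1) p (0, 1)) = 7200 * (2 - sin p.1 ^ 2) := by
  have h0 := W0 p.1
  have h2 := W2 p.1
  have h3 := sin_sq_add_cos_sq p.1
  have h4 := sin_sq_add_cos_sq p.2
  have h5 := sin_sq_add_cos_sq (2 * p.2)
  have h6 := sin_sq_add_cos_sq (4 * p.2)
  have h7 := sin_sq_add_cos_sq (5 * p.2)
  have h8 : √3 ^ 2 = 3 := sq_sqrt (by norm_num)
  rw [(dX 1 p).1, (dX 1 p).2, EuclideanSpace.real_norm_sq_eq]
  simp only [EuclideanSpace.inner_eq_star_dotProduct, dotProduct, X, S, Fin.sum_univ_succ]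
  simp [a, A, b, B, μ, c]
  refine ⟨by grind, ?_, ?_, by grind⟩ <;> field_simp <;> grind

end Pool.Agent.H.MP_1643f9
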